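import Pool.Agent.P6F.Main

/-!
# Forbidden induced subgraphs in terms of graph embeddings
-/

set_option autoImplicit false

namespace Pool.Agent.P6F

variable {V : Type} {G : SimpleGraph V}

/-- a map which preserves and reflects adjacency is an embedding if the source has no twins -/
theorem emb_of {n : ℕ} (H : SimpleGraph (Fin n))
    (hH : ∀ i j, (∀ k, H.Adj i k ↔ H.Adj j k) → i = j) (f : Fin n → V)
    (hf : ∀ i j, G.Adj (f i) (f j) ↔ H.Adj i j) : Nonempty (H ↪g G) := by
  refine ⟨⟨⟨f, ?_⟩, fun {i j} => hf i j⟩⟩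
  intro i j hij
  refine hH i j fun k => ?_
  rw [← hf i k, ← hf j k, hij]

theorem noC5_of (h : IsEmpty (SimpleGraph.cycleGraph 5 ↪g G)) : NoC5 G := by
  intro a b c d e hab hbc hcd hde hea hac had hbd hbe hce
  obtain ⟨φ⟩ := emb_of (G := G) (SimpleGraph.cycleGraph 5) (by decide) ![a, b, c, d, e] (by
    intro i j
    have hca : ¬ G.Adj c a := fun h' => hac h'.symm
    have hda : ¬ G.Adj d a := fun h' => had h'.symm
    have hdb : ¬ G.Adj d b := fun h' => hbd h'.symm
    have heb : ¬ G.Adj e b := fun h' => hbe h'.symm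
    have hec : ¬ G.Adj e c := fun h' => hce h'.symm
    fin_cases i <;> fin_cases j <;>
      simp [SimpleGraph.cycleGraph_adj, hab, hab.symm, hbc, hbc.symm, hcd, hcd.symm, hde,
        hde.symm, hea, hea.symm, hac, hca, had, hda, hbd, hdb, hbe, heb, hce, hec] <;> decide)
  exact h.false φ

theorem noC6_of (h : IsEmpty (SimpleGraph.cycleGraph 6 ↪g G)) : NoC6 G := by
  intro a b c d e f hab hbc hcd hde hef hfa hac had hae hbd hbe hbf hce hcf hdf
  obtain ⟨φ⟩ := emb_of (G := G) (SimpleGraph.cycleGraph 6) (by decide) ![a, b, c, d, e, f] (by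
    intro i j
    have hca : ¬ G.Adj c a := fun h' => hac h'.symm
    have hda : ¬ G.Adj d a := fun h' => had h'.symm
    have hea : ¬ G.Adj e a := fun h' => hae h'.symm
    have hdb : ¬ G.Adj d b := fun h' => hbd h'.symm
    have heb : ¬ G.Adj e b := fun h' => hbe h'.symm
    have hfb : ¬ G.Adj f b := fun h' => hbf h'.symm
    have hec : ¬ G.Adj e c := fun h' => hce h'.symm
    have hfc : ¬ G.Adj f c := fun h' => hcf h'.symm
    have hfd : ¬ G.Adj f d := fun h' => hdf h'.symm
    fin_cases i <;> fin_cases j <;>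
      simp [SimpleGraph.cycleGraph_adj, hab, hab.symm, hbc, hbc.symm, hcd, hcd.symm, hde,
        hde.symm, hef, hef.symm, hfa, hfa.symm, hac, hca, had, hda, hae, hea, hbd, hdb, hbe,
        heb, hbf, hfb, hce, hec, hcf, hfc, hdf, hfd] <;> decide)
  exact h.false φ

theorem noP6_of (h : IsEmpty (SimpleGraph.pathGraph 6 ↪g G)) : NoP6 G := by
  intro a b c d e f hab hbc hcd hde hef hac had hae haf hbd hbe hbf hce hcf hdf
  obtain ⟨φ⟩ := emb_of (G := G) (SimpleGraph.pathGraph 6) (by
      intro i j
      simp only [SimpleGraph.pathGraph_adj]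
      revert i j
      decide) ![a, b, c, d, e, f] (by
    intro i j
    have hca : ¬ G.Adj c a := fun h' => hac h'.symm
    have hda : ¬ G.Adj d a := fun h' => had h'.symm
    have hea : ¬ G.Adj e a := fun h' => hae h'.symm
    have hfa : ¬ G.Adj f a := fun h' => haf h'.symm
    have hdb : ¬ G.Adj d b := fun h' => hbd h'.symm
    have heb : ¬ G.Adj e b := fun h' => hbe h'.symm
    have hfb : ¬ G.Adj f b := fun h' => hbf h'.symm
    have hec : ¬ G.Adj e c := fun h' => hce h'.symm
    have hfc : ¬ G.Adj f c := fun h' => hcf h'.symm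
    have hfd : ¬ G.Adj f d := fun h' => hdf h'.symm
    fin_cases i <;> fin_cases j <;>
      simp [SimpleGraph.pathGraph_adj, hab, hab.symm, hbc, hbc.symm, hcd, hcd.symm, hde,
        hde.symm, hef, hef.symm, haf, hfa, hac, hca, had, hda, hae, hea, hbd, hdb, hbe,
        heb, hbf, hfb, hce, hec, hcf, hfc, hdf, hfd])
  exact h.false φ

end Pool.Agent.P6F
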