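import Mathlib

/-!
# Two-part partitions for graphs without induced `P6`, `C5`, `C6`: the module lemma

All sets are finsets of vertices of one fixed graph `G`.
-/

set_option autoImplicit false

namespace Pool.Agent.P6F

variable {V : Type} [DecidableEq V] (G : SimpleGraph V)

/-- every clique inside `X` has at most `k` vertices -/
def CLE (X : Finset V) (k : ℕ) : Prop :=
  ∀ s : Finset V, s ⊆ X → G.IsClique (s : Set V) → s.card ≤ k

/-- for every `k ≥ 1` for which all cliques of `X` have at most `k + 1` vertices, `X` splits into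
two parts whose cliques have at most `k` vertices -/
def Good (X : Finset V) : Prop :=
  ∀ k, 1 ≤ k → CLE G X (k + 1) → ∃ A ⊆ X, CLE G A k ∧ CLE G (X \ A) k

/-- hypotheses of the module lemma -/
def BHyp (D M : Finset V) (w : ℕ) : Prop :=
  (∀ K L : Finset V, K ⊆ D → K.Nonempty → L ⊆ M → G.IsClique ((K ∪ L : Finset V) : Set V) →
    K.card + L.card ≤ w) ∧
  (∀ m ∈ M, ∀ d ∈ D, ∀ u ∈ D, ∀ v ∈ D, G.Adj m d → ¬ G.Adj m u → ¬ G.Adj m v → G.Adj d u →
    G.Adj u v → G.Adj d v) ∧
  ∀ m ∈ M, m ∉ D

/-- conclusion of the module lemma -/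
def BCon (D M : Finset V) (w : ℕ) : Prop :=
  ∃ W ⊆ D, (∀ Q : Finset V, Q ⊆ D \ W → G.IsClique (Q : Set V) → Q.card < w) ∧
    ∀ K L : Finset V, K ⊆ W → 2 ≤ K.card → L ⊆ M →
      G.IsClique ((K ∪ L : Finset V) : Set V) → K.card + L.card < w

variable {G}

/-- union of two cliques which are complete to each other -/
theorem clique_union {K L : Finset V} (hK : G.IsClique (K : Set V)) (hL : G.IsClique (L : Set V))
    (h : ∀ x ∈ K, ∀ y ∈ L, G.Adj x y) : G.IsClique ((K ∪ L : Finset V) : Set V) := by
  intro x hx y hy hne
  rw [Finset.mem_coe, Finset.mem_union] at hx hy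
  rcases hx with hx | hx <;> rcases hy with hy | hy
  · exact hK hx hy hne
  · exact h x hx y hy
  · exact (h y hy x hx).symm
  · exact hL hx hy hne

omit [DecidableEq V] in
theorem clique_sub {K L : Finset V} (hL : G.IsClique (L : Set V)) (h : K ⊆ L) :
    G.IsClique (K : Set V) :=
  fun _ hx _ hy hne => hL (h hx) (h hy) hne

/-- a component: a nonempty part without edges to the rest, connected in the sense of cuts -/
theorem exists_comp (Y : Finset V) (hY : Y.Nonempty) :
    ∃ E ⊆ Y, E.Nonempty ∧ (∀ x ∈ E, ∀ y ∈ Y \ E, ¬ G.Adj x y) ∧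
      ∀ S ⊆ E, S.Nonempty → S ≠ E → ∃ x ∈ S, ∃ y ∈ E \ S, G.Adj x y := by
  classical
  let F : Finset (Finset V) := Y.powerset.filter
    (fun E => E.Nonempty ∧ ∀ x ∈ E, ∀ y ∈ Y \ E, ¬ G.Adj x y)
  have hF : F.Nonempty := by
    refine ⟨Y, Finset.mem_filter.2 ⟨Finset.mem_powerset.2 (Finset.Subset.refl _), hY, ?_⟩⟩
    intro x _ y hy
    rw [Finset.sdiff_self] at hy
    exact absurd hy (Finset.notMem_empty _)
  obtain ⟨E, hE, hmin⟩ := F.exists_min_image (fun E => E.card) hF
  simp only [F, Finset.mem_filter, Finset.mem_powerset] at hE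
  obtain ⟨hEY, hEn, hE0⟩ := hE
  refine ⟨E, hEY, hEn, hE0, ?_⟩
  intro S hS hSn hne
  by_contra hcon
  have hcl : S ∈ F := by
    simp only [F, Finset.mem_filter, Finset.mem_powerset]
    refine ⟨hS.trans hEY, hSn, ?_⟩
    intro x hx y hy hadj
    rw [Finset.mem_sdiff] at hy
    by_cases hyE : y ∈ E
    · exact hcon ⟨x, hx, y, Finset.mem_sdiff.2 ⟨hyE, hy.2⟩, hadj⟩
    · exact hE0 x (hS hx) y (Finset.mem_sdiff.2 ⟨hy.1, hyE⟩) hadj
  have h1 := hmin S hcl
  have h2 : S.card < E.card := Finset.card_lt_card (Finset.ssubset_iff_subset_ne.2 ⟨hS, hne⟩)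
  omega

/-- a co-component: a nonempty part complete to the rest, connected in the complement -/
theorem exists_cocomp (Y : Finset V) (hY : Y.Nonempty) :
    ∃ E ⊆ Y, E.Nonempty ∧ (∀ x ∈ E, ∀ y ∈ Y \ E, G.Adj x y) ∧
      ∀ S ⊆ E, S.Nonempty → S ≠ E → ∃ x ∈ S, ∃ y ∈ E \ S, ¬ G.Adj x y := by
  classical
  let F : Finset (Finset V) := Y.powerset.filter
    (fun E => E.Nonempty ∧ ∀ x ∈ E, ∀ y ∈ Y \ E, G.Adj x y)
  have hF : F.Nonempty := by
    refine ⟨Y, Finset.mem_filter.2 ⟨Finset.mem_powerset.2 (Finset.Subset.refl _), hY, ?_⟩⟩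
    intro x _ y hy
    rw [Finset.sdiff_self] at hy
    exact absurd hy (Finset.notMem_empty _)
  obtain ⟨E, hE, hmin⟩ := F.exists_min_image (fun E => E.card) hF
  simp only [F, Finset.mem_filter, Finset.mem_powerset] at hE
  obtain ⟨hEY, hEn, hE0⟩ := hE
  refine ⟨E, hEY, hEn, hE0, ?_⟩
  intro S hS hSn hne
  by_contra hcon
  have hcl : S ∈ F := by
    simp only [F, Finset.mem_filter, Finset.mem_powerset]
    refine ⟨hS.trans hEY, hSn, ?_⟩
    intro x hx y hy
    rw [Finset.mem_sdiff] at hy
    by_cases hyE : y ∈ E
    · by_contra hadj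
      exact hcon ⟨x, hx, y, Finset.mem_sdiff.2 ⟨hyE, hy.2⟩, hadj⟩
    · exact hE0 x (hS hx) y (Finset.mem_sdiff.2 ⟨hy.1, hyE⟩)
  have h1 := hmin S hcl
  have h2 : S.card < E.card := Finset.card_lt_card (Finset.ssubset_iff_subset_ne.2 ⟨hS, hne⟩)
  omega

/-- a maximum clique of a nonempty set -/
theorem exists_maxclique (Y : Finset V) (hY : Y.Nonempty) :
    ∃ K ⊆ Y, K.Nonempty ∧ G.IsClique (K : Set V) ∧
      ∀ s : Finset V, s ⊆ Y → G.IsClique (s : Set V) → s.card ≤ K.card := by
  classical
  obtain ⟨y, hy⟩ := hY
  let F : Finset (Finset V) := Y.powerset.filter (fun E => G.IsClique (E : Set V))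
  have hF : {y} ∈ F := by simp [F, hy]
  obtain ⟨E, hE, hmax⟩ := F.exists_max_image (fun E => E.card) ⟨_, hF⟩
  simp only [F, Finset.mem_filter, Finset.mem_powerset] at hE hmax
  refine ⟨E, hE.1, ?_, hE.2, fun s hs hc => hmax s ⟨hs, hc⟩⟩
  have h1 := hmax {y} (by simpa [F] using hF)
  rw [Finset.card_singleton] at h1
  exact Finset.card_pos.1 (by omega)

/-- the co-component step -/
theorem stepS (D P M : Finset V) (w : ℕ) (hD : D.Nonempty)
    (hPD : ∀ p ∈ P, ∀ d ∈ D, G.Adj p d) (hMD : ∀ m ∈ M, m ∉ D)
    (h1 : ∀ K L : Finset V, K ⊆ D ∪ P → (K ∩ D).Nonempty → L ⊆ M →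
      G.IsClique ((K ∪ L : Finset V) : Set V) → K.card + L.card ≤ w)
    (h2 : ∀ m ∈ M, ∀ d ∈ D, ∀ z ∈ D ∪ P, ∀ v ∈ D, G.Adj m d → ¬ G.Adj m z → ¬ G.Adj m v →
      G.Adj d z → G.Adj z v → G.Adj d v)
    (hB : ∀ D' ⊆ D, ∀ (M' : Finset V) (w' : ℕ), 1 ≤ w' → BHyp G D' M' w' → BCon G D' M' w') :
    ∃ W ⊆ D, (∀ Q : Finset V, Q ⊆ (D ∪ P) \ W → (Q ∩ D).Nonempty → G.IsClique (Q : Set V) →
        Q.card < w) ∧
      ∀ K L : Finset V, K ⊆ W → 2 ≤ K.card → L ⊆ M →
        G.IsClique ((K ∪ L : Finset V) : Set V) → K.card + L.card < w := by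
  classical
  by_cases hall : ∀ Q : Finset V, Q ⊆ D ∪ P → (Q ∩ D).Nonempty → G.IsClique (Q : Set V) →
      Q.card < w
  · refine ⟨∅, Finset.empty_subset _, fun Q hQ => hall Q (hQ.trans Finset.sdiff_subset), ?_⟩
    intro K L hK hK2
    rw [Finset.subset_empty.1 hK] at hK2
    simp at hK2
  · push Not at hall
    obtain ⟨Q0, hQ0, hQ0D, hQ0c, hQ0w⟩ := hall
    obtain ⟨D', hD', hD'n, hco, hconn⟩ := exists_cocomp (G := G) D hD
    obtain ⟨Ks, hKs, hKsn, hKsc, hKsm⟩ := exists_maxclique (G := G) D' hD'n
    -- vertices outside `D'` are complete to `D'`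
    have hout : ∀ r ∈ D ∪ P, r ∉ D' → ∀ x ∈ D', G.Adj r x := by
      intro r hr hr' x hx
      rcases Finset.mem_union.1 hr with h | h
      · exact (hco x hx r (Finset.mem_sdiff.2 ⟨h, hr'⟩)).symm
      · exact hPD r h x (hD' hx)
    -- exchange: `Q` outside of `D'` together with `Ks`
    have hex : ∀ Q L : Finset V, Q ⊆ D ∪ P → L ⊆ M → G.IsClique ((Q ∪ L : Finset V) : Set V) →
        (∀ l ∈ L, ∀ x ∈ Ks, G.Adj l x) → (Q \ D').card + Ks.card + L.card ≤ w := by
      intro Q L hQ hL hc hLK
      have hdis : Disjoint (Q \ D') Ks := by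
        rw [Finset.disjoint_left]
        intro x hx hx'
        exact (Finset.mem_sdiff.1 hx).2 (hKs hx')
      have hcl : G.IsClique (((Q \ D' ∪ Ks) ∪ L : Finset V) : Set V) := by
        have hQL : G.IsClique (((Q \ D') ∪ L : Finset V) : Set V) :=
          clique_sub hc (Finset.union_subset_union_left Finset.sdiff_subset)
        have h3 : G.IsClique ((((Q \ D') ∪ L) ∪ Ks : Finset V) : Set V) := by
          refine clique_union hQL hKsc ?_
          intro x hx y hy
          rcases Finset.mem_union.1 hx with h | h
          · exact hout x (hQ (Finset.mem_sdiff.1 h).1) (Finset.mem_sdiff.1 h).2 y (hKs hy)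
          · exact hLK x h y hy
        have h4 : (Q \ D' ∪ Ks) ∪ L = ((Q \ D') ∪ L) ∪ Ks := by
          rw [Finset.union_assoc, Finset.union_assoc, Finset.union_comm Ks L]
        rw [h4]; exact h3
      have hsub : Q \ D' ∪ Ks ⊆ D ∪ P :=
        Finset.union_subset (Finset.sdiff_subset.trans hQ)
          (hKs.trans (hD'.trans Finset.subset_union_left))
      have hne : ((Q \ D' ∪ Ks) ∩ D).Nonempty := by
        obtain ⟨x, hx⟩ := hKsn
        exact ⟨x, Finset.mem_inter.2 ⟨Finset.mem_union_right _ hx, hD' (hKs hx)⟩⟩
      have := h1 _ L hsub hne hL hcl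
      rw [Finset.card_union_of_disjoint hdis] at this
      exact this
    have hsplit : ∀ Q : Finset V, Q.card = (Q \ D').card + (Q ∩ D').card := by
      intro Q
      rw [Finset.card_sdiff_add_card_inter]
    -- the clique `R`
    have hRw : (Q0 \ D').card + Ks.card = w := by
      have h3 := hex Q0 ∅ hQ0 (Finset.empty_subset _) (by simpa using hQ0c) (by simp)
      have h4 := hKsm (Q0 ∩ D') Finset.inter_subset_right
        (clique_sub hQ0c Finset.inter_subset_left)
      have h5 := hsplit Q0
      simp only [Finset.card_empty] at h3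
      omega
    have hKs1 : 1 ≤ Ks.card := Finset.card_pos.2 hKsn
    let M' : Finset V := M.filter (fun m => ∀ z ∈ (D \ D') ∪ P, G.Adj m z)
    have hRin : ∀ r ∈ Q0 \ D', r ∈ (D \ D') ∪ P := by
      intro r hr
      rw [Finset.mem_sdiff] at hr
      rcases Finset.mem_union.1 (hQ0 hr.1) with h | h
      · exact Finset.mem_union_left _ (Finset.mem_sdiff.2 ⟨h, hr.2⟩)
      · exact Finset.mem_union_right _ h
    have hin : ∀ z ∈ (D \ D') ∪ P, z ∈ D ∪ P ∧ (z ∈ D' → False) := by
      intro z hz
      rcases Finset.mem_union.1 hz with h | h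
      · exact ⟨Finset.mem_union_left _ (Finset.mem_sdiff.1 h).1, (Finset.mem_sdiff.1 h).2⟩
      · exact ⟨Finset.mem_union_right _ h, fun h' => G.loopless.irrefl z (hPD z h z (hD' h'))⟩
    have hBH : BHyp G D' M' Ks.card := by
      refine ⟨?_, ?_, ?_⟩
      · intro K L hK hKn hL hc
        have hdis : Disjoint K (Q0 \ D') := by
          rw [Finset.disjoint_left]
          intro x hx hx'
          exact (Finset.mem_sdiff.1 hx').2 (hK hx)
        have hcl : G.IsClique (((K ∪ Q0 \ D') ∪ L : Finset V) : Set V) := by
          have h3 : G.IsClique (((K ∪ L) ∪ Q0 \ D' : Finset V) : Set V) := by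
            refine clique_union hc (clique_sub hQ0c Finset.sdiff_subset) ?_
            intro x hx y hy
            rcases Finset.mem_union.1 hx with h | h
            · exact (hout y (hQ0 (Finset.mem_sdiff.1 hy).1) (Finset.mem_sdiff.1 hy).2 x
                (hK h)).symm
            · exact (Finset.mem_filter.1 (hL h)).2 y (hRin y hy)
          have h4 : (K ∪ Q0 \ D') ∪ L = (K ∪ L) ∪ Q0 \ D' := by
            rw [Finset.union_assoc, Finset.union_assoc, Finset.union_comm (Q0 \ D') L]
          rw [h4]; exact h3
        have hsub : K ∪ Q0 \ D' ⊆ D ∪ P :=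
          Finset.union_subset (hK.trans (hD'.trans Finset.subset_union_left))
            (Finset.sdiff_subset.trans hQ0)
        have hne : ((K ∪ Q0 \ D') ∩ D).Nonempty := by
          obtain ⟨x, hx⟩ := hKn
          exact ⟨x, Finset.mem_inter.2 ⟨Finset.mem_union_left _ hx, hD' (hK hx)⟩⟩
        have h5 := h1 _ L hsub hne (hL.trans (Finset.filter_subset _ _)) hcl
        rw [Finset.card_union_of_disjoint hdis] at h5
        omega
      · intro m hm d hd u hu v hv
        exact h2 m (Finset.mem_filter.1 hm).1 d (hD' hd) u
          (Finset.mem_union_left _ (hD' hu)) v (hD' hv)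
      · intro m hm hm'
        exact hMD m (Finset.mem_filter.1 hm).1 (hD' hm')
    obtain ⟨W, hW, hWa, hWb⟩ := hB D' hD' M' Ks.card hKs1 hBH
    refine ⟨W, hW.trans hD', ?_, ?_⟩
    · intro Q hQ hQD hQc
      have hQs : Q ⊆ D ∪ P := hQ.trans Finset.sdiff_subset
      have h3 := hex Q ∅ hQs (Finset.empty_subset _) (by simpa using hQc) (by simp)
      have h4 : (Q ∩ D').card < Ks.card := by
        refine hWa _ ?_ (clique_sub hQc Finset.inter_subset_left)
        intro x hx
        rw [Finset.mem_inter] at hx
        exact Finset.mem_sdiff.2 ⟨hx.2, (Finset.mem_sdiff.1 (hQ hx.1)).2⟩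
      have h5 := hsplit Q
      simp only [Finset.card_empty] at h3
      omega
    · intro K L hK hK2 hL hc
      obtain ⟨k0, hk0⟩ : K.Nonempty := Finset.card_pos.1 (by omega)
      have hk0D' : k0 ∈ D' := hW (hK hk0)
      let Lb : Finset V := L.filter (fun l => ∀ x ∈ D', G.Adj l x)
      let La : Finset V := L.filter (fun l => ¬ ∀ x ∈ D', G.Adj l x)
      have hLab : Lb.card + La.card = L.card :=
        Finset.card_filter_add_card_filter_not _
      have hLc : G.IsClique (L : Set V) := clique_sub hc Finset.subset_union_right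
      have hb : Ks.card + Lb.card ≤ w := by
        have h3 := hex ∅ Lb (Finset.empty_subset _) ((Finset.filter_subset _ _).trans hL)
          (by
            have : G.IsClique (Lb : Set V) := clique_sub hLc (Finset.filter_subset _ _)
            simpa using this)
          (fun l hl x hx => (Finset.mem_filter.1 hl).2 x (hKs hx))
        simpa using h3
      have hLaM : La ⊆ M' := by
        intro l hl
        rw [Finset.mem_filter] at hl
        obtain ⟨hlL, hlp⟩ := hl
        push Not at hlp
        obtain ⟨u0, hu0, hlu0⟩ := hlp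
        refine Finset.mem_filter.2 ⟨hL hlL, ?_⟩
        intro z hz
        by_contra hlz
        obtain ⟨hzDP, hzD'⟩ := hin z hz
        have hlk : l ≠ k0 := by
          rintro rfl
          exact hMD _ (hL hlL) (hD' hk0D')
        have hadj : G.Adj l k0 := by
          refine hc ?_ ?_ hlk
          · rw [Finset.mem_coe]; exact Finset.mem_union_right _ hlL
          · rw [Finset.mem_coe]; exact Finset.mem_union_left _ hk0
        have hS1 : (D'.filter (fun x => G.Adj l x)).Nonempty :=
          ⟨k0, Finset.mem_filter.2 ⟨hk0D', hadj⟩⟩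
        have hS2 : D'.filter (fun x => G.Adj l x) ≠ D' := by
          intro h
          have : u0 ∈ D'.filter (fun x => G.Adj l x) := by rw [h]; exact hu0
          exact hlu0 (Finset.mem_filter.1 this).2
        obtain ⟨v, hv, u, hu, hvu⟩ := hconn _ (Finset.filter_subset _ _) hS1 hS2
        rw [Finset.mem_filter] at hv
        rw [Finset.mem_sdiff] at hu
        have hlu : ¬ G.Adj l u := fun h => hu.2 (Finset.mem_filter.2 ⟨hu.1, h⟩)
        refine hvu (h2 l (hL hlL) v (hD' hv.1) z hzDP u (hD' hu.1) hv.2 hlz hlu ?_ ?_)
        · exact (hout z hzDP hzD' v hv.1).symm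
        · exact hout z hzDP hzD' u hu.1
      have h6 := hWb K La hK hK2 hLaM (clique_sub hc
        (Finset.union_subset_union_right (Finset.filter_subset _ _)))
      omega

/-- the module lemma -/
theorem lemmaB (D0 : Finset V) (hG : ∀ X ⊆ D0, Good G X) :
    ∀ (n : ℕ) (D M : Finset V) (w : ℕ), D.card ≤ n → D ⊆ D0 → 1 ≤ w → BHyp G D M w →
      BCon G D M w := by
  classical
  intro n
  induction n with
  | zero =>
    intro D M w hn _ hw _
    have hD : D = ∅ := Finset.card_eq_zero.1 (by omega)
    subst hD
    refine ⟨∅, Finset.Subset.refl _, ?_, ?_⟩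
    · intro Q hQ _
      have : Q = ∅ := by simpa using hQ
      subst this
      simp only [Finset.card_empty]
      omega
    · intro K L hK hK2
      rw [Finset.subset_empty.1 hK] at hK2
      simp at hK2
  | succ n ih =>
    intro D M w hn hD0 hw hBH
    obtain ⟨h1, h2, h3⟩ := hBH
    rcases Nat.lt_or_ge w 2 with hw2 | hw2
    · refine ⟨D, Finset.Subset.refl _, ?_, ?_⟩
      · intro Q hQ _
        have : Q = ∅ := by simpa using hQ
        subst this
        simp only [Finset.card_empty]
        omega
      · intro K L hK hK2 hL hc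
        have := h1 K L hK (Finset.card_pos.1 (by omega)) hL hc
        omega
    · by_cases ht : ∃ s ∈ M, ∃ t ∈ D, G.Adj s t
      · obtain ⟨s, hs, t, ht, hst⟩ := ht
        let T : Finset V := D.filter (fun x => G.Adj s x)
        have hT : T ⊆ D := Finset.filter_subset _ _
        have htT : t ∈ T := Finset.mem_filter.2 ⟨ht, hst⟩
        have key : ∀ (k : ℕ) (Y : Finset V), Y.card ≤ k → Y ⊆ D \ T →
            ∃ W ⊆ Y, (∀ Q : Finset V, Q ⊆ (T ∪ Y) \ W → G.IsClique (Q : Set V) → Q.card < w) ∧
              ∀ K L : Finset V, K ⊆ W → 2 ≤ K.card → L ⊆ M →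
                G.IsClique ((K ∪ L : Finset V) : Set V) → K.card + L.card < w := by
          intro k
          induction k with
          | zero =>
            intro Y hYk _
            have hY : Y = ∅ := Finset.card_eq_zero.1 (by omega)
            subst hY
            refine ⟨∅, Finset.Subset.refl _, ?_, ?_⟩
            · intro Q hQ hQc
              have hQT : Q ⊆ T := by simpa using hQ
              rcases Q.eq_empty_or_nonempty with h | h
              · subst h
                simp only [Finset.card_empty]
                omega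
              · have h5 := h1 Q {s} (hQT.trans hT) h (Finset.singleton_subset_iff.2 hs)
                  (clique_union hQc (by simp) (by
                    intro x hx y hy
                    rw [Finset.mem_singleton] at hy
                    subst hy
                    exact (Finset.mem_filter.1 (hQT hx)).2.symm))
                rw [Finset.card_singleton] at h5
                omega
            · intro K L hK hK2
              rw [Finset.subset_empty.1 hK] at hK2
              simp at hK2
          | succ k ihk =>
            intro Y hYk hYD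
            rcases Y.eq_empty_or_nonempty with hYe | hYn
            · exact ihk Y (by rw [hYe]; simp) hYD
            · obtain ⟨E, hEY, hEn, hE0, hconn⟩ := exists_comp (G := G) Y hYn
              have hEc : 0 < E.card := Finset.card_pos.2 hEn
              have hED : E ⊆ D := (hEY.trans hYD).trans Finset.sdiff_subset
              have hEs : ∀ x ∈ E, ¬ G.Adj s x := by
                intro x hx h
                have := Finset.mem_sdiff.1 (hYD (hEY hx))
                exact this.2 (Finset.mem_filter.2 ⟨this.1, h⟩)
              let P : Finset V := T.filter (fun p => ∃ e ∈ E, G.Adj p e)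
              have hPT : P ⊆ T := Finset.filter_subset _ _
              have hPE : ∀ p ∈ P, ∀ d ∈ E, G.Adj p d := by
                intro p hp d hd
                obtain ⟨hpT, e, he, hpe⟩ := Finset.mem_filter.1 hp
                by_contra hpd
                obtain ⟨u, hu, v, hv, huv⟩ := hconn (E.filter (fun x => G.Adj p x))
                  (Finset.filter_subset _ _) ⟨e, Finset.mem_filter.2 ⟨he, hpe⟩⟩ (by
                    intro h
                    have : d ∈ E.filter (fun x => G.Adj p x) := by rw [h]; exact hd
                    exact hpd (Finset.mem_filter.1 this).2)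
                rw [Finset.mem_filter] at hu
                rw [Finset.mem_sdiff] at hv
                have hpv := h2 s hs p (hT hpT) u (hED hu.1) v (hED hv.1)
                  (Finset.mem_filter.1 hpT).2 (hEs u hu.1) (hEs v hv.1) hu.2 huv
                exact hv.2 (Finset.mem_filter.2 ⟨hv.1, hpv⟩)
              have hEPD : E ∪ P ⊆ D := Finset.union_subset hED (hPT.trans hT)
              obtain ⟨WE, hWE, hWEa, hWEb⟩ := stepS E P M w hEn hPE
                (fun m hm h => h3 m hm (hED h))
                (fun K L hK hKn hL hc => h1 K L (hK.trans hEPD)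
                  (hKn.mono Finset.inter_subset_left) hL hc)
                (fun m hm d hd z hz v hv => h2 m hm d (hED hd) z (hEPD hz) v (hED hv))
                (fun D' hD' M' w' hw' hBH' => by
                  refine ih D' M' w' ?_ (hD'.trans (hED.trans hD0)) hw' hBH'
                  have h4 : D' ⊆ D.erase t := by
                    intro x hx
                    refine Finset.mem_erase.2 ⟨?_, hED (hD' hx)⟩
                    rintro rfl
                    exact hEs _ (hD' hx) hst
                  have h5 := Finset.card_le_card h4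
                  rw [Finset.card_erase_of_mem ht] at h5
                  omega)
              have hYE : (Y \ E).card ≤ k := by
                have := Finset.card_sdiff_add_card_eq_card hEY
                omega
              obtain ⟨W1, hW1, hW1a, hW1b⟩ := ihk (Y \ E) hYE (Finset.sdiff_subset.trans hYD)
              refine ⟨W1 ∪ WE, Finset.union_subset (hW1.trans Finset.sdiff_subset)
                (hWE.trans hEY), ?_, ?_⟩
              · intro Q hQ hQc
                by_cases hQE : (Q ∩ E).Nonempty
                · obtain ⟨e, he⟩ := hQE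
                  rw [Finset.mem_inter] at he
                  refine hWEa Q ?_ ⟨e, Finset.mem_inter.2 he⟩ hQc
                  intro q hq
                  have hq1 := Finset.mem_sdiff.1 (hQ hq)
                  refine Finset.mem_sdiff.2 ⟨?_, fun h => hq1.2 (Finset.mem_union_right _ h)⟩
                  by_cases hqE : q ∈ E
                  · exact Finset.mem_union_left _ hqE
                  · have hne : q ≠ e := by
                      rintro rfl
                      exact hqE he.2
                    have hadj : G.Adj q e := hQc hq he.1 hne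
                    rcases Finset.mem_union.1 hq1.1 with h | h
                    · exact Finset.mem_union_right _ (Finset.mem_filter.2 ⟨h, e, he.2, hadj⟩)
                    · exact absurd hadj.symm (hE0 e he.2 q (Finset.mem_sdiff.2 ⟨h, hqE⟩))
                · refine hW1a Q ?_ hQc
                  intro q hq
                  have hq1 := Finset.mem_sdiff.1 (hQ hq)
                  have hqE : q ∉ E := fun h => hQE ⟨q, Finset.mem_inter.2 ⟨hq, h⟩⟩
                  refine Finset.mem_sdiff.2 ⟨?_, fun h => hq1.2 (Finset.mem_union_left _ h)⟩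
                  rcases Finset.mem_union.1 hq1.1 with h | h
                  · exact Finset.mem_union_left _ h
                  · exact Finset.mem_union_right _ (Finset.mem_sdiff.2 ⟨h, hqE⟩)
              · intro K L hK hK2 hL hc
                have hKc : G.IsClique (K : Set V) := clique_sub hc Finset.subset_union_left
                by_cases hKE : (K ∩ E).Nonempty
                · obtain ⟨e, he⟩ := hKE
                  rw [Finset.mem_inter] at he
                  refine hWEb K L ?_ hK2 hL hc
                  intro q hq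
                  rcases Finset.mem_union.1 (hK hq) with h | h
                  · have hqY := Finset.mem_sdiff.1 (hW1 h)
                    have hne : q ≠ e := by
                      rintro rfl
                      exact hqY.2 he.2
                    exact absurd (hKc he.1 hq hne.symm)
                      (hE0 e he.2 q (Finset.mem_sdiff.2 hqY))
                  · exact h
                · refine hW1b K L ?_ hK2 hL hc
                  intro q hq
                  rcases Finset.mem_union.1 (hK hq) with h | h
                  · exact h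
                  · exact absurd ⟨q, Finset.mem_inter.2 ⟨hq, hWE h⟩⟩ hKE
        obtain ⟨W, hW, hWa, hWb⟩ := key _ (D \ T) le_rfl (Finset.Subset.refl _)
        refine ⟨W, hW.trans Finset.sdiff_subset, ?_, hWb⟩
        intro Q hQ hQc
        refine hWa Q ?_ hQc
        rw [Finset.union_sdiff_of_subset hT]
        exact hQ
      · have hnt : ∀ s ∈ M, ∀ t ∈ D, ¬ G.Adj s t := fun s hs t ht' h => ht ⟨s, hs, t, ht', h⟩
        obtain ⟨A, hA, hA1, hA2⟩ := hG D hD0 (w - 1) (by omega) (by
          intro s hs hc
          rw [show w - 1 + 1 = w by omega]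
          rcases s.eq_empty_or_nonempty with h | h
          · subst h; simp
          · have := h1 s ∅ hs h (Finset.empty_subset _) (by simpa using hc)
            simpa using this)
        refine ⟨A, hA, ?_, ?_⟩
        · intro Q hQ hQc
          have := hA2 Q hQ hQc
          omega
        · intro K L hK hK2 hL hc
          obtain ⟨k0, hk0⟩ : K.Nonempty := Finset.card_pos.1 (by omega)
          have hLe : L = ∅ := by
            rw [Finset.eq_empty_iff_forall_notMem]
            intro l hl
            have hne : l ≠ k0 := by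
              rintro rfl
              exact h3 _ (hL hl) (hA (hK hk0))
            refine hnt l (hL hl) k0 (hA (hK hk0)) (hc ?_ ?_ hne)
            · rw [Finset.mem_coe]; exact Finset.mem_union_right _ hl
            · rw [Finset.mem_coe]; exact Finset.mem_union_left _ hk0
          subst hLe
          have := hA1 K hK (clique_sub hc Finset.subset_union_left)
          simp only [Finset.card_empty]
          omega

end Pool.Agent.P6F
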