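import Mathlib
import Pool.Agent.P6F.Emb

set_option autoImplicit false

namespace Pool.Agent.P6F.PathSixFree

/-- Let `G` be a finite simple graph with at least one edge which contains no induced path on six
vertices and no induced cycle of length five or six (so it has no induced cycle of length at least
five at all). Then there is a set `A` of vertices such that no maximum clique lies inside `A` or
inside its complement. -/
theorem result : ∀ (V : Type) [Fintype V] [DecidableEq V] (G : SimpleGraph V),
    (∃ u v : V, G.Adj u v) →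
    IsEmpty (SimpleGraph.cycleGraph 5 ↪g G) → IsEmpty (SimpleGraph.cycleGraph 6 ↪g G) →
    IsEmpty (SimpleGraph.pathGraph 6 ↪g G) →
    ∃ A : Finset V, ∀ s : Finset V,
      (G.IsClique (s : Set V) ∧
        ∀ t : Finset V, G.IsClique (t : Set V) → t.card ≤ s.card) →
      ¬ s ⊆ A ∧ ¬ s ⊆ Aᶜ := by
  intro V _ _ G hE h5 h6 hP
  obtain ⟨u, v, huv⟩ := hE
  obtain ⟨K, _, _, hKc, hKm⟩ := P6F.exists_maxclique (G := G) (Finset.univ : Finset V)
    ⟨u, Finset.mem_univ u⟩
  have h2 : 2 ≤ K.card := by
    have h3 := hKm {u, v} (Finset.subset_univ _) (by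
      intro x hx y hy hne
      rw [Finset.mem_coe, Finset.mem_insert, Finset.mem_singleton] at hx hy
      rcases hx with rfl | rfl <;> rcases hy with rfl | rfl
      · exact absurd rfl hne
      · exact huv
      · exact huv.symm
      · exact absurd rfl hne)
    rwa [Finset.card_pair huv.ne] at h3
  obtain ⟨A, _, hA1, hA2⟩ := P6F.good_all (P6F.noC5_of h5) (P6F.noC6_of h6) (P6F.noP6_of hP)
    (Finset.univ : Finset V) (K.card - 1) (by omega) (by
      intro s _ hc
      have := hKm s (Finset.subset_univ _) hc
      omega)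
  refine ⟨A, ?_⟩
  rintro s ⟨hs, hmax⟩
  have h4 := hmax K hKc
  refine ⟨fun h => ?_, fun h => ?_⟩
  · have := hA1 s h hs
    omega
  · have := hA2 s (by
      intro x hx
      exact Finset.mem_sdiff.2 ⟨Finset.mem_univ x, Finset.mem_compl.1 (h hx)⟩) hs
    omega

end Pool.Agent.P6F.PathSixFree
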