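import Pool.Agent.P6F.Main

/-!
# Two-part partitions: the relative form of the step for `P6`-free sets
-/

set_option autoImplicit false

namespace Pool.Agent.P6F

variable {V : Type} [DecidableEq V] (G : SimpleGraph V)

/-- no induced path on six vertices inside `X` -/
def NoP6On (X : Finset V) : Prop :=
  ∀ a b c d e f : V, a ∈ X → b ∈ X → c ∈ X → d ∈ X → e ∈ X → f ∈ X →
    G.Adj a b → G.Adj b c → G.Adj c d → G.Adj d e → G.Adj e f →
    ¬ G.Adj a c → ¬ G.Adj a d → ¬ G.Adj a e → ¬ G.Adj a f → ¬ G.Adj b d → ¬ G.Adj b e →
    ¬ G.Adj b f → ¬ G.Adj c e → ¬ G.Adj c f → ¬ G.Adj d f → False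

/-- no induced cycle on five vertices inside `X` -/
def NoC5On (X : Finset V) : Prop :=
  ∀ a b c d e : V, a ∈ X → b ∈ X → c ∈ X → d ∈ X → e ∈ X →
    G.Adj a b → G.Adj b c → G.Adj c d → G.Adj d e → G.Adj e a →
    ¬ G.Adj a c → ¬ G.Adj a d → ¬ G.Adj b d → ¬ G.Adj b e → ¬ G.Adj c e → False

/-- no induced cycle on six vertices inside `X` -/
def NoC6On (X : Finset V) : Prop :=
  ∀ a b c d e f : V, a ∈ X → b ∈ X → c ∈ X → d ∈ X → e ∈ X → f ∈ X →
    G.Adj a b → G.Adj b c → G.Adj c d → G.Adj d e → G.Adj e f → G.Adj f a →
    ¬ G.Adj a c → ¬ G.Adj a d → ¬ G.Adj a e → ¬ G.Adj b d → ¬ G.Adj b e →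
    ¬ G.Adj b f → ¬ G.Adj c e → ¬ G.Adj c f → ¬ G.Adj d f → False

variable {G}

/-- the step for one component of the part missed by the edge `a b` -/
theorem good_connOn {X : Finset V} (h5 : NoC5On G X) (h6 : NoC6On G X) (hP : NoP6On G X)
    (hedge : ∃ x ∈ X, ∃ y ∈ X, G.Adj x y)
    (ih : ∀ D : Finset V, D.card < X.card → Good G D) : Good G X := by
  classical
  intro k hk hX
  obtain ⟨a, ha, b, hb, hab, hmax⟩ := exists_edge hedge
  let Na : Finset V := X.filter (fun x => G.Adj a x)
  let Nb : Finset V := X.filter (fun x => G.Adj b x ∧ ¬ G.Adj a x)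
  let Z : Finset V := X.filter (fun x => ¬ G.Adj a x ∧ ¬ G.Adj b x)
  have hNaX : Na ⊆ X := Finset.filter_subset _ _
  have hNbX : Nb ⊆ X := Finset.filter_subset _ _
  have hZX : Z ⊆ X := Finset.filter_subset _ _
  -- maximality
  have hEa : ∀ c ∈ X, G.Adj a c → (∃ z ∈ X, G.Adj c z ∧ ¬ G.Adj a z ∧ ¬ G.Adj b z) →
      ∃ y ∈ X, G.Adj b y ∧ ¬ G.Adj a y ∧ ¬ G.Adj c y := by
    rintro c hc hac ⟨z, hz, hcz, hza, hzb⟩
    obtain ⟨y, hy, h1, h2, h3⟩ := hmax a ha c hc hac ⟨z, hz, Or.inr hcz, hza, hzb⟩
    rcases h1 with h1 | h1
    · exact absurd h1 h2
    · exact ⟨y, hy, h1, h2, h3⟩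
  have hEb : ∀ c ∈ X, G.Adj b c → (∃ z ∈ X, G.Adj c z ∧ ¬ G.Adj a z ∧ ¬ G.Adj b z) →
      ∃ y ∈ X, G.Adj a y ∧ ¬ G.Adj b y ∧ ¬ G.Adj c y := by
    rintro c hc hbc ⟨z, hz, hcz, hza, hzb⟩
    obtain ⟨y, hy, h1, h2, h3⟩ := hmax b hb c hc hbc ⟨z, hz, Or.inr hcz, hza, hzb⟩
    rcases h1 with h1 | h1
    · exact ⟨y, hy, h1, h2, h3⟩
    · exact absurd h1 h2
  have key : ∀ (j : ℕ) (Y : Finset V), Y.card ≤ j → Y ⊆ Z →
      ∃ W ⊆ Y, CLE G (Na ∪ W) k ∧ CLE G (Nb ∪ (Y \ W)) k := by
    intro j
    induction j with
    | zero =>
      intro Y hYj _
      have hY : Y = ∅ := Finset.card_eq_zero.1 (by omega)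
      subst hY
      refine ⟨∅, Finset.Subset.refl _, ?_, ?_⟩
      · intro s hs hc
        rw [Finset.union_empty] at hs
        exact insert_card hX (hs.trans hNaX) hc a ha
          (fun y hy => (Finset.mem_filter.1 (hs hy)).2)
      · intro s hs hc
        rw [Finset.sdiff_self, Finset.union_empty] at hs
        exact insert_card hX (hs.trans hNbX) hc b hb
          (fun y hy => (Finset.mem_filter.1 (hs hy)).2.1)
    | succ j ihj =>
      intro Y hYj hYZ
      rcases Y.eq_empty_or_nonempty with hYe | hYn
      · exact ihj Y (by rw [hYe]; simp) hYZ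
      · obtain ⟨D, hDY, hDn, hD0, hconn⟩ := exists_comp (G := G) Y hYn
        have hDc : 0 < D.card := Finset.card_pos.2 hDn
        have hYD : (Y \ D).card ≤ j := by
          have := Finset.card_sdiff_add_card_eq_card hDY
          omega
        have hDZ : ∀ d ∈ D, d ∈ X ∧ ¬ G.Adj a d ∧ ¬ G.Adj b d := fun d hd => by
          have := hYZ (hDY hd)
          exact ⟨(Finset.mem_filter.1 this).1, (Finset.mem_filter.1 this).2⟩
        obtain ⟨W1, hW1, hW1a, hW1b⟩ := ihj (Y \ D) hYD (Finset.sdiff_subset.trans hYZ)
        -- cliques of side 1 which miss `D`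
        have side1 : ∀ W' ⊆ D, ∀ s : Finset V, s ⊆ Nb ∪ (Y \ (W1 ∪ W')) →
            G.IsClique (s : Set V) → (∀ e ∈ s, e ∉ D) → s.card ≤ k := by
          intro W' _ s hs hc hsD
          refine hW1b s ?_ hc
          intro q hq
          rcases Finset.mem_union.1 (hs hq) with h | h
          · exact Finset.mem_union_left _ h
          · have h1 := Finset.mem_sdiff.1 h
            exact Finset.mem_union_right _ (Finset.mem_sdiff.2
              ⟨Finset.mem_sdiff.2 ⟨h1.1, hsD q hq⟩,
                fun h' => h1.2 (Finset.mem_union_left _ h')⟩)
        -- members of a clique of side 1 which meets `D`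
        have side1' : ∀ W' ⊆ D, ∀ s : Finset V, s ⊆ Nb ∪ (Y \ (W1 ∪ W')) →
            G.IsClique (s : Set V) → ∀ e ∈ s, e ∈ D → ∀ q ∈ s, q ∈ D ∨ (q ∈ Nb ∧ G.Adj q e) := by
          intro W' _ s hs hc e he heD q hq
          by_cases hqD : q ∈ D
          · exact Or.inl hqD
          · right
            have hne : e ≠ q := by
              rintro rfl
              exact hqD heD
            have hadj := hc he hq hne
            rcases Finset.mem_union.1 (hs hq) with h | h
            · exact ⟨h, hadj.symm⟩
            · exact absurd hadj (hD0 e heD q (Finset.mem_sdiff.2 ⟨(Finset.mem_sdiff.1 h).1, hqD⟩))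
        by_cases hA : ∃ x ∈ X, G.Adj a x ∧ ¬ G.Adj b x ∧ ∃ d ∈ D, G.Adj x d
        · obtain ⟨x, hx, hax, hbx, d0, hd0, hxd0⟩ := hA
          -- `x` is complete to `D`
          have hxD : ∀ d ∈ D, G.Adj x d := by
            intro d hd
            by_contra hxd
            obtain ⟨d1, hd1, d2, hd2, hd12⟩ := hconn (D.filter (fun z => G.Adj x z))
              (Finset.filter_subset _ _) ⟨d0, Finset.mem_filter.2 ⟨hd0, hxd0⟩⟩ (by
                intro h
                have : d ∈ D.filter (fun z => G.Adj x z) := by rw [h]; exact hd
                exact hxd (Finset.mem_filter.1 this).2)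
            rw [Finset.mem_filter] at hd1
            rw [Finset.mem_sdiff] at hd2
            have hxd2 : ¬ G.Adj x d2 := fun h => hd2.2 (Finset.mem_filter.2 ⟨hd2.1, h⟩)
            obtain ⟨_, had1, hbd1⟩ := hDZ d1 hd1.1
            obtain ⟨_, had2, hbd2⟩ := hDZ d2 hd2.1
            obtain ⟨y, hy, hby, hay, hxy⟩ := hEa x hx hax
              ⟨d1, (hDZ d1 hd1.1).1, hd1.2, had1, hbd1⟩
            by_cases h1 : G.Adj d1 y
            · exact h5 y d1 x a b hy (hDZ d1 hd1.1).1 hx ha hb h1.symm hd1.2.symm hax.symm hab hby
                (fun h => hxy h.symm) (fun h => hay h.symm) (fun h => had1 h.symm)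
                (fun h => hbd1 h.symm) (fun h => hbx h.symm)
            · by_cases h2 : G.Adj d2 y
              · exact h6 y d2 d1 x a b hy (hDZ d2 hd2.1).1 (hDZ d1 hd1.1).1 hx ha hb
                  h2.symm hd12.symm hd1.2.symm hax.symm hab hby
                  (fun h => h1 h.symm) (fun h => hxy h.symm) (fun h => hay h.symm)
                  (fun h => hxd2 h.symm) (fun h => had2 h.symm) (fun h => hbd2 h.symm)
                  (fun h => had1 h.symm) (fun h => hbd1 h.symm) (fun h => hbx h.symm)
              · exact hP d2 d1 x a b y (hDZ d2 hd2.1).1 (hDZ d1 hd1.1).1 hx ha hb hy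
                  hd12.symm hd1.2.symm hax.symm hab hby
                  (fun h => hxd2 h.symm) (fun h => had2 h.symm) (fun h => hbd2 h.symm) h2
                  (fun h => had1 h.symm) (fun h => hbd1 h.symm) h1 (fun h => hbx h.symm) hxy
                  hay
          refine ⟨W1, hW1.trans Finset.sdiff_subset, hW1a, ?_⟩
          intro s hs hc
          have hs' : s ⊆ Nb ∪ (Y \ (W1 ∪ ∅)) := by rw [Finset.union_empty]; exact hs
          by_cases hsD : ∃ e ∈ s, e ∈ D
          · obtain ⟨e, he, heD⟩ := hsD
            refine insert_card hX ?_ hc x hx ?_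
            · exact hs.trans (Finset.union_subset hNbX
                (Finset.sdiff_subset.trans (hYZ.trans hZX)))
            · intro q hq
              rcases side1' ∅ (Finset.empty_subset _) s hs' hc e he heD q hq with h | ⟨h, hqe⟩
              · exact hxD q h
              · by_contra hxq
                obtain ⟨_, hae, hbe⟩ := hDZ e heD
                have hq2 := (Finset.mem_filter.1 h).2
                exact h5 e x a b q (hDZ e heD).1 hx ha hb (hNbX h)
                  (hxD e heD).symm hax.symm hab hq2.1 hqe
                  (fun h => hae h.symm) (fun h => hbe h.symm) (fun h => hbx h.symm) hxq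
                  hq2.2
          · refine side1 ∅ (Finset.empty_subset _) s hs' hc ?_
            intro e he heD
            exact hsD ⟨e, he, heD⟩
        · have hA' : ∀ x ∈ X, G.Adj a x → ¬ G.Adj b x → ∀ d ∈ D, ¬ G.Adj x d := by
            intro x hx hax hbx d hd hxd
            exact hA ⟨x, hx, hax, hbx, d, hd, hxd⟩
          let P : Finset V := Nb.filter (fun p => ∃ d ∈ D, G.Adj p d)
          let M : Finset V := Na.filter (fun m => G.Adj b m)
          have hPX : P ⊆ X := (Finset.filter_subset _ _).trans hNbX
          have hMX : M ⊆ X := (Finset.filter_subset _ _).trans hNaX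
          have hDX : D ⊆ X := hDY.trans (hYZ.trans hZX)
          have hPb : ∀ p ∈ P, G.Adj b p ∧ ¬ G.Adj a p := fun p hp =>
            (Finset.mem_filter.1 (Finset.mem_filter.1 hp).1).2
          have hPD : ∀ p ∈ P, ∀ d ∈ D, G.Adj p d := by
            intro p hp d hd
            obtain ⟨hpN, d0, hd0, hpd0⟩ := Finset.mem_filter.1 hp
            obtain ⟨hbp, hap⟩ := hPb p hp
            by_contra hpd
            obtain ⟨d1, hd1, d2, hd2, hd12⟩ := hconn (D.filter (fun z => G.Adj p z))
              (Finset.filter_subset _ _) ⟨d0, Finset.mem_filter.2 ⟨hd0, hpd0⟩⟩ (by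
                intro h
                have : d ∈ D.filter (fun z => G.Adj p z) := by rw [h]; exact hd
                exact hpd (Finset.mem_filter.1 this).2)
            rw [Finset.mem_filter] at hd1
            rw [Finset.mem_sdiff] at hd2
            have hpd2 : ¬ G.Adj p d2 := fun h => hd2.2 (Finset.mem_filter.2 ⟨hd2.1, h⟩)
            obtain ⟨hd1X, had1, hbd1⟩ := hDZ d1 hd1.1
            obtain ⟨_, had2, hbd2⟩ := hDZ d2 hd2.1
            obtain ⟨x, hx, hax, hbx, hpx⟩ := hEb p (hPX hp) hbp ⟨d1, hd1X, hd1.2, had1, hbd1⟩
            exact hP d2 d1 p b a x (hDZ d2 hd2.1).1 hd1X (hPX hp) hb ha hx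
              hd12.symm hd1.2.symm hbp.symm hab.symm hax
              (fun h => hpd2 h.symm) (fun h => hbd2 h.symm) (fun h => had2 h.symm)
              (fun h => hA' x hx hax hbx d2 hd2.1 h.symm) (fun h => hbd1 h.symm)
              (fun h => had1 h.symm) (fun h => hA' x hx hax hbx d1 hd1.1 h.symm)
              (fun h => hap h.symm) hpx hbx
          have hMab : ∀ m ∈ M, G.Adj a m ∧ G.Adj b m := fun m hm =>
            ⟨(Finset.mem_filter.1 (Finset.mem_filter.1 hm).1).2, (Finset.mem_filter.1 hm).2⟩
          have hDPa : ∀ z ∈ D ∪ P, ¬ G.Adj a z := by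
            intro z hz
            rcases Finset.mem_union.1 hz with h | h
            · exact (hDZ z h).2.1
            · exact (hPb z h).2
          obtain ⟨WD, hWD, hWDa, hWDb⟩ := stepS D P M (k + 1) hDn hPD
            (fun m hm h => (hDZ m h).2.1 (hMab m hm).1)
            (by
              intro K L hK _ hL hc
              have hdis : Disjoint K L := by
                rw [Finset.disjoint_left]
                intro z hz hz'
                exact hDPa z (hK hz) (hMab z (hL hz')).1
              have h1 := hX (K ∪ L) (Finset.union_subset
                (hK.trans (Finset.union_subset hDX hPX)) (hL.trans hMX)) hc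
              rwa [Finset.card_union_of_disjoint hdis] at h1)
            (by
              intro m hm d hd z hz v hv hmd hmz hmv hdz hzv
              by_contra hdv
              obtain ⟨ham, hbm⟩ := hMab m hm
              obtain ⟨hdX, had, hbd⟩ := hDZ d hd
              obtain ⟨hvX, hav, hbv⟩ := hDZ v hv
              have hzX : z ∈ X := (Finset.union_subset hDX hPX) hz
              obtain ⟨x, hx, hax, hbx, hmx⟩ := hEb m (hMX hm) hbm ⟨d, hdX, hmd, had, hbd⟩
              have hxd := hA' x hx hax hbx d hd
              have hxv := hA' x hx hax hbx v hv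
              by_cases hzx : G.Adj z x
              · exact h5 z d m a x hzX hdX (hMX hm) ha hx hdz.symm hmd.symm ham.symm hax hzx.symm
                  (fun h => hmz h.symm) (fun h => hDPa z hz h.symm) (fun h => had h.symm)
                  (fun h => hxd h.symm) hmx
              · exact hP v z d m a x hvX hzX hdX (hMX hm) ha hx
                  hzv.symm hdz.symm hmd.symm ham.symm hax
                  (fun h => hdv h.symm) (fun h => hmv h.symm) (fun h => hav h.symm)
                  (fun h => hxv h.symm) (fun h => hmz h.symm) (fun h => hDPa z hz h.symm) hzx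
                  (fun h => had h.symm) (fun h => hxd h.symm) hmx)
            (by
              intro D' hD' M' w' hw' hBH
              refine lemmaB D ?_ _ D' M' w' le_rfl hD' hw' hBH
              intro S hS
              refine ih S ?_
              have h1 : S ⊆ X.erase a := by
                intro q hq
                refine Finset.mem_erase.2 ⟨?_, hDX (hS hq)⟩
                rintro rfl
                exact (hDZ _ (hS hq)).2.2 hab.symm
              have h2 := Finset.card_le_card h1
              rw [Finset.card_erase_of_mem ha] at h2
              have h3 : 0 < X.card := Finset.card_pos.2 ⟨a, ha⟩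
              omega)
          refine ⟨W1 ∪ WD, Finset.union_subset (hW1.trans Finset.sdiff_subset)
            (hWD.trans hDY), ?_, ?_⟩
          · intro s hs hc
            by_cases hsD : ∃ e ∈ s, e ∈ D
            · obtain ⟨e, he, heD⟩ := hsD
              let K : Finset V := s.filter (fun q => q ∈ D)
              let L : Finset V := s.filter (fun q => q ∉ D)
              have hKL : K ∪ L = s := Finset.filter_union_filter_not_eq _ _
              have hcard : K.card + L.card = s.card :=
                Finset.card_filter_add_card_filter_not _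
              have hKW : K ⊆ WD := by
                intro q hq
                obtain ⟨hqs, hqD⟩ := Finset.mem_filter.1 hq
                rcases Finset.mem_union.1 (hs hqs) with h | h
                · exact absurd (Finset.mem_filter.1 h).2 (hDZ q hqD).2.1
                · rcases Finset.mem_union.1 h with h | h
                  · exact absurd hqD (Finset.mem_sdiff.1 (hW1 h)).2
                  · exact h
              have hLM : L ⊆ M := by
                intro q hq
                obtain ⟨hqs, hqD⟩ := Finset.mem_filter.1 hq
                have hne : e ≠ q := by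
                  rintro rfl
                  exact hqD heD
                have hadj := hc he hqs hne
                rcases Finset.mem_union.1 (hs hqs) with h | h
                · refine Finset.mem_filter.2 ⟨h, ?_⟩
                  by_contra hbq
                  exact hA' q (hNaX h) (Finset.mem_filter.1 h).2 hbq e heD hadj.symm
                · rcases Finset.mem_union.1 h with h | h
                  · exact absurd hadj (hD0 e heD q (hW1 h))
                  · exact absurd (hWD h) hqD
              have hKc : G.IsClique ((K ∪ L : Finset V) : Set V) := by rw [hKL]; exact hc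
              rcases Nat.lt_or_ge K.card 2 with hK2 | hK2
              · -- `a` and `b` are complete to `L`
                have hLc : G.IsClique (L : Set V) := clique_sub hc (Finset.filter_subset _ _)
                have hbL : b ∉ L := fun h => G.loopless.irrefl b (hMab b (hLM h)).2
                have haL : a ∉ L ∪ {b} := by
                  intro h
                  rcases Finset.mem_union.1 h with h | h
                  · exact G.loopless.irrefl a (hMab a (hLM h)).1
                  · rw [Finset.mem_singleton] at h
                    rw [h] at hab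
                    exact G.loopless.irrefl b hab
                have h1 : G.IsClique ((L ∪ {b} : Finset V) : Set V) := by
                  refine clique_union hLc (by simp) ?_
                  intro y hy z hz
                  rw [Finset.mem_singleton] at hz
                  subst hz
                  exact (hMab y (hLM hy)).2.symm
                have h2 : G.IsClique (((L ∪ {b}) ∪ {a} : Finset V) : Set V) := by
                  refine clique_union h1 (by simp) ?_
                  intro y hy z hz
                  rw [Finset.mem_singleton] at hz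
                  subst hz
                  rcases Finset.mem_union.1 hy with h | h
                  · exact (hMab y (hLM h)).1.symm
                  · rw [Finset.mem_singleton] at h
                    subst h
                    exact hab.symm
                have h3 := hX _ (Finset.union_subset (Finset.union_subset (hLM.trans hMX)
                  (Finset.singleton_subset_iff.2 hb)) (Finset.singleton_subset_iff.2 ha)) h2
                rw [Finset.card_union_of_disjoint (Finset.disjoint_singleton_right.2 haL),
                  Finset.card_union_of_disjoint (Finset.disjoint_singleton_right.2 hbL),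
                  Finset.card_singleton, Finset.card_singleton] at h3
                omega
              · have := hWDb K L hKW hK2 hLM hKc
                omega
            · refine hW1a s ?_ hc
              intro q hq
              rcases Finset.mem_union.1 (hs hq) with h | h
              · exact Finset.mem_union_left _ h
              · rcases Finset.mem_union.1 h with h | h
                · exact Finset.mem_union_right _ h
                · exact absurd ⟨q, hq, hWD h⟩ hsD
          · intro s hs hc
            by_cases hsD : ∃ e ∈ s, e ∈ D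
            · obtain ⟨e, he, heD⟩ := hsD
              have h1 : s ⊆ (D ∪ P) \ WD := by
                intro q hq
                refine Finset.mem_sdiff.2 ⟨?_, ?_⟩
                · rcases side1' WD hWD s hs hc e he heD q hq with h | ⟨h, hqe⟩
                  · exact Finset.mem_union_left _ h
                  · exact Finset.mem_union_right _ (Finset.mem_filter.2 ⟨h, e, heD, hqe⟩)
                · intro hqW
                  rcases Finset.mem_union.1 (hs hq) with h | h
                  · exact (hDZ q (hWD hqW)).2.2 (Finset.mem_filter.1 h).2.1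
                  · exact (Finset.mem_sdiff.1 h).2 (Finset.mem_union_right _ hqW)
              have h2 := hWDa s h1 ⟨e, Finset.mem_inter.2 ⟨he, heD⟩⟩ hc
              omega
            · refine side1 WD hWD s hs hc ?_
              intro e he heD
              exact hsD ⟨e, he, heD⟩
  obtain ⟨W, hW, hWa, hWb⟩ := key _ Z le_rfl (Finset.Subset.refl _)
  refine ⟨Na ∪ W, Finset.union_subset hNaX (hW.trans hZX), hWa, ?_⟩
  refine cle_mono hWb ?_
  intro q hq
  obtain ⟨hqX, hq2⟩ := Finset.mem_sdiff.1 hq
  have hqa : ¬ G.Adj a q := fun h => hq2 (Finset.mem_union_left _ (Finset.mem_filter.2 ⟨hqX, h⟩))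
  by_cases hqb : G.Adj b q
  · exact Finset.mem_union_left _ (Finset.mem_filter.2 ⟨hqX, hqb, hqa⟩)
  · refine Finset.mem_union_right _ (Finset.mem_sdiff.2
      ⟨Finset.mem_filter.2 ⟨hqX, hqa, hqb⟩, fun h => hq2 (Finset.mem_union_right _ h)⟩)

end Pool.Agent.P6F
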