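import Pool.Agent.P6F.Rooted
import Pool.Agent.P6F.Emb

/-!
# Roots of induced paths in terms of graph embeddings
-/

set_option autoImplicit false

namespace Pool.Agent.P6F

variable {V : Type} {G : SimpleGraph V}

theorem p5_of {r : V} (h : ∀ φ : SimpleGraph.pathGraph 5 ↪g G, φ 0 ≠ r) (b c d e : V)
    (hrb : G.Adj r b) (hbc : G.Adj b c) (hcd : G.Adj c d) (hde : G.Adj d e)
    (hrc : ¬ G.Adj r c) (hrd : ¬ G.Adj r d) (hre : ¬ G.Adj r e) (hbd : ¬ G.Adj b d)
    (hbe : ¬ G.Adj b e) (hce : ¬ G.Adj c e) : False := by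
  have key : ∀ i j : Fin 5, G.Adj (![r, b, c, d, e] i) (![r, b, c, d, e] j) ↔
      (SimpleGraph.pathGraph 5).Adj i j := by
    intro i j
    have hcr : ¬ G.Adj c r := fun h' => hrc h'.symm
    have hdr : ¬ G.Adj d r := fun h' => hrd h'.symm
    have her : ¬ G.Adj e r := fun h' => hre h'.symm
    have hdb : ¬ G.Adj d b := fun h' => hbd h'.symm
    have heb : ¬ G.Adj e b := fun h' => hbe h'.symm
    have hec : ¬ G.Adj e c := fun h' => hce h'.symm
    fin_cases i <;> fin_cases j <;>
      simp [SimpleGraph.pathGraph_adj, hrb, hrb.symm, hbc, hbc.symm, hcd, hcd.symm, hde,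
        hde.symm, hrc, hcr, hrd, hdr, hre, her, hbd, hdb, hbe, heb, hce, hec]
  have hinj : Function.Injective ![r, b, c, d, e] := by
    have htw : ∀ i j : Fin 5, (∀ k, (SimpleGraph.pathGraph 5).Adj i k ↔
        (SimpleGraph.pathGraph 5).Adj j k) → i = j := by
      intro i j
      simp only [SimpleGraph.pathGraph_adj]
      revert i j
      decide
    intro i j hij
    refine htw i j fun k => ?_
    rw [← key i k, ← key j k, hij]
  exact h ⟨⟨![r, b, c, d, e], hinj⟩, fun {i j} => key i j⟩ rfl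

end Pool.Agent.P6F
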