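import Pool.Agent.P6F.Rel

/-!
# Two-part partitions with a root which is not an end of an induced `P5`
-/

set_option autoImplicit false

namespace Pool.Agent.P6F

variable {V : Type} [DecidableEq V] (G : SimpleGraph V)

/-- no induced path on five vertices inside `X` starts at `r` -/
def NoP5At (X : Finset V) (r : V) : Prop :=
  ∀ b c d e : V, b ∈ X → c ∈ X → d ∈ X → e ∈ X →
    G.Adj r b → G.Adj b c → G.Adj c d → G.Adj d e →
    ¬ G.Adj r c → ¬ G.Adj r d → ¬ G.Adj r e → ¬ G.Adj b d → ¬ G.Adj b e → ¬ G.Adj c e → False

/-- no induced cycle on five vertices inside `X` contains `r` -/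
def NoC5At (X : Finset V) (r : V) : Prop :=
  ∀ b c d e : V, b ∈ X → c ∈ X → d ∈ X → e ∈ X →
    G.Adj r b → G.Adj b c → G.Adj c d → G.Adj d e → G.Adj e r →
    ¬ G.Adj r c → ¬ G.Adj r d → ¬ G.Adj b d → ¬ G.Adj b e → ¬ G.Adj c e → False

variable {G}

/-- the pivot step: `s` is a neighbour of the root `r`, `T` consists of neighbours of `s` and `Y`
of non-neighbours of `s`, all of them non-neighbours of `r` -/
theorem pivot {X : Finset V} {r : V} (hr : r ∈ X) (hP : NoP5At G X r) (hC : NoC5At G X r)
    {k : ℕ} (hk : 1 ≤ k) (hX : CLE G X (k + 1))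
    (ih : ∀ D : Finset V, D.card < X.card → Good G D) :
    ∀ (n : ℕ) (s : V) (T Y : Finset V), Y.card ≤ n → s ∈ X → G.Adj r s →
      (∀ t ∈ T, t ∈ X ∧ G.Adj s t ∧ ¬ G.Adj r t) →
      (∀ y ∈ Y, y ∈ X ∧ ¬ G.Adj s y ∧ ¬ G.Adj r y ∧ y ≠ r) →
      ∃ W ⊆ Y, (∀ Q : Finset V, (∀ q ∈ Q, (q ∈ X ∧ G.Adj r q) ∨ q ∈ W) → (Q ∩ Y).Nonempty →
          G.IsClique (Q : Set V) → Q.card ≤ k) ∧
        CLE G ((T ∪ Y) \ W) k := by
  classical
  intro n
  induction n with
  | zero =>
    intro s T Y hn hs hrs hT hY
    have hYe : Y = ∅ := Finset.card_eq_zero.1 (by omega)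
    subst hYe
    refine ⟨∅, Finset.Subset.refl _, ?_, ?_⟩
    · intro Q _ hQ
      simp at hQ
    · intro Q hQ hQc
      have hQT : Q ⊆ T := by simpa using hQ
      exact insert_card hX (fun q hq => (hT q (hQT hq)).1) hQc s hs
        (fun y hy => (hT y (hQT hy)).2.1)
  | succ n ihn =>
    intro s T Y hn hs hrs hT hY
    rcases Y.eq_empty_or_nonempty with hYe | hYn
    · exact ihn s T Y (by rw [hYe]; simp) hs hrs hT hY
    obtain ⟨E, hEY, hEn, hE0, hconn⟩ := exists_comp (G := G) Y hYn
    have hSY : ∀ q, q ∈ X ∧ G.Adj r q → q ∉ Y := fun q hq h =>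
      (hY q h).2.2.1 hq.2
    have hTY : ∀ t ∈ T, t ∉ Y := fun t ht h => (hY t h).2.1 (hT t ht).2.1
    by_cases hEe : E = Y
    · subst hEe
      let TY : Finset V := T.filter (fun t => ∃ e ∈ E, G.Adj t e)
      have hTYT : TY ⊆ T := Finset.filter_subset _ _
      -- vertices of `TY` are complete to `E`
      have hTc : ∀ t ∈ TY, ∀ d ∈ E, G.Adj t d := by
        intro t ht d hd
        obtain ⟨htT, e, he, hte⟩ := Finset.mem_filter.1 ht
        by_contra htd
        obtain ⟨u, hu, v, hv, huv⟩ := hconn (E.filter (fun x => G.Adj t x))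
          (Finset.filter_subset _ _) ⟨e, Finset.mem_filter.2 ⟨he, hte⟩⟩ (by
            intro h
            have : d ∈ E.filter (fun x => G.Adj t x) := by rw [h]; exact hd
            exact htd (Finset.mem_filter.1 this).2)
        rw [Finset.mem_filter] at hu
        rw [Finset.mem_sdiff] at hv
        have htv : ¬ G.Adj t v := fun h => hv.2 (Finset.mem_filter.2 ⟨hv.1, h⟩)
        obtain ⟨htX, hst, hrt⟩ := hT t htT
        obtain ⟨huX, hsu, hru, _⟩ := hY u hu.1
        obtain ⟨hvX, hsv, hrv, _⟩ := hY v hv.1
        exact hP s t u v hs htX huX hvX hrs hst hu.2 huv hrt hru hrv hsu hsv htv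
      by_cases hx : ∃ x ∈ X, G.Adj r x ∧ ¬ G.Adj s x ∧ ∃ e ∈ E, G.Adj x e
      · -- a new pivot
        obtain ⟨x, hxX, hrx, hsx, e0, he0, hxe0⟩ := hx
        have hxT : ∀ t ∈ TY, G.Adj x t := by
          intro t ht
          by_contra hxt
          have hte := hTc t ht e0 he0
          obtain ⟨htX, hst, hrt⟩ := hT t (hTYT ht)
          obtain ⟨heX, hse, hre, _⟩ := hY e0 he0
          exact hC s t e0 x hs htX heX hxX hrs hst hte hxe0.symm hrx.symm hrt hre hse hsx
            (fun h => hxt h.symm)
        let Y' : Finset V := E.filter (fun y => ¬ G.Adj x y)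
        let T' : Finset V := TY ∪ E.filter (fun y => G.Adj x y)
        have hY'E : Y' ⊆ E := Finset.filter_subset _ _
        have hY'c : Y'.card ≤ n := by
          have h1 : Y' ⊂ E := by
            refine Finset.ssubset_iff_subset_ne.2 ⟨hY'E, ?_⟩
            intro h
            have h2 : e0 ∈ Y' := by rw [h]; exact he0
            exact (Finset.mem_filter.1 h2).2 hxe0
          have := Finset.card_lt_card h1
          omega
        obtain ⟨W, hW, hWa, hWb⟩ := ihn x T' Y' hY'c hxX hrx (by
            intro t ht
            rcases Finset.mem_union.1 ht with h | h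
            · exact ⟨(hT t (hTYT h)).1, hxT t h, (hT t (hTYT h)).2.2⟩
            · obtain ⟨h1, h2⟩ := Finset.mem_filter.1 h
              exact ⟨(hY t h1).1, h2, (hY t h1).2.2.1⟩)
          (by
            intro y hy
            obtain ⟨h1, h2⟩ := Finset.mem_filter.1 hy
            exact ⟨(hY y h1).1, h2, (hY y h1).2.2⟩)
        refine ⟨W, hW.trans hY'E, ?_, ?_⟩
        · intro Q hQ hQY hQc
          refine hWa Q hQ ?_ hQc
          obtain ⟨q, hq⟩ := hQY
          obtain ⟨hqQ, hqE⟩ := Finset.mem_inter.1 hq
          rcases hQ q hqQ with h | h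
          · exact absurd hqE (hSY q h)
          · exact ⟨q, Finset.mem_inter.2 ⟨hqQ, hW h⟩⟩
        · intro Q hQ hQc
          by_cases hQE : ∃ e ∈ Q, e ∈ E
          · obtain ⟨e, he, heE⟩ := hQE
            refine hWb Q ?_ hQc
            intro q hq
            obtain ⟨h1, h2⟩ := Finset.mem_sdiff.1 (hQ hq)
            refine Finset.mem_sdiff.2 ⟨?_, h2⟩
            by_cases hqE : q ∈ E
            · by_cases hxq : G.Adj x q
              · exact Finset.mem_union_left _ (Finset.mem_union_right _
                  (Finset.mem_filter.2 ⟨hqE, hxq⟩))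
              · exact Finset.mem_union_right _ (Finset.mem_filter.2 ⟨hqE, hxq⟩)
            · rcases Finset.mem_union.1 h1 with h | h
              · have hne : q ≠ e := by
                  rintro rfl
                  exact hqE heE
                exact Finset.mem_union_left _ (Finset.mem_union_left _
                  (Finset.mem_filter.2 ⟨h, e, heE, hQc hq he hne⟩))
              · exact absurd h hqE
          · have hQT : Q ⊆ T := by
              intro q hq
              rcases Finset.mem_union.1 (Finset.mem_sdiff.1 (hQ hq)).1 with h | h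
              · exact h
              · exact absurd ⟨q, hq, h⟩ hQE
            exact insert_card hX (fun q hq => (hT q (hQT hq)).1) hQc s hs
              (fun y hy => (hT y (hQT hy)).2.1)
      · -- the terminal case
        let M : Finset V := X.filter (fun x => G.Adj r x ∧ ∃ e ∈ E, G.Adj x e)
        have hM : ∀ m ∈ M, m ∈ X ∧ G.Adj r m ∧ G.Adj s m := by
          intro m hm
          obtain ⟨hmX, hrm, e, he, hme⟩ := Finset.mem_filter.1 hm
          refine ⟨hmX, hrm, ?_⟩
          by_contra hsm
          exact hx ⟨m, hmX, hrm, hsm, e, he, hme⟩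
        have hEPX : E ∪ TY ⊆ X := by
          intro z hz
          rcases Finset.mem_union.1 hz with h | h
          · exact (hY z h).1
          · exact (hT z (hTYT h)).1
        have hEPr : ∀ z ∈ E ∪ TY, ¬ G.Adj r z := by
          intro z hz
          rcases Finset.mem_union.1 hz with h | h
          · exact (hY z h).2.2.1
          · exact (hT z (hTYT h)).2.2
        obtain ⟨W, hW, hWa, hWb⟩ := stepS E TY M (k + 1) hEn hTc
          (fun m hm h => (hY m h).2.2.1 (hM m hm).2.1)
          (by
            intro K L hK _ hL hc
            have hdis : Disjoint K L := by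
              rw [Finset.disjoint_left]
              intro z hz hz'
              exact hEPr z (hK hz) (hM z (hL hz')).2.1
            have h1 := hX (K ∪ L) (Finset.union_subset (hK.trans hEPX)
              (fun z hz => (hM z (hL hz)).1)) hc
            rwa [Finset.card_union_of_disjoint hdis] at h1)
          (by
            intro m hm d hd z hz v hv hmd hmz hmv hdz hzv
            by_contra hdv
            obtain ⟨hmX, hrm, _⟩ := hM m hm
            exact hP m d z v hmX (hY d hd).1 (hEPX hz) (hY v hv).1 hrm hmd hdz hzv
              (hY d hd).2.2.1 (hEPr z hz) (hY v hv).2.2.1 hmz hmv hdv)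
          (by
            intro D' hD' M' w' hw' hBH
            refine lemmaB E ?_ _ D' M' w' le_rfl hD' hw' hBH
            intro S hS
            refine ih S ?_
            have h1 : S ⊆ X.erase r := by
              intro q hq
              exact Finset.mem_erase.2 ⟨(hY q (hS hq)).2.2.2, (hY q (hS hq)).1⟩
            have h2 := Finset.card_le_card h1
            rw [Finset.card_erase_of_mem hr] at h2
            have h3 : 0 < X.card := Finset.card_pos.2 ⟨r, hr⟩
            omega)
        refine ⟨W, hW, ?_, ?_⟩
        · intro Q hQ hQY hQc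
          obtain ⟨e, he⟩ := hQY
          obtain ⟨heQ, heE⟩ := Finset.mem_inter.1 he
          let K : Finset V := Q.filter (fun q => q ∈ E)
          let L : Finset V := Q.filter (fun q => q ∉ E)
          have hKL : K ∪ L = Q := Finset.filter_union_filter_not_eq _ _
          have hcard : K.card + L.card = Q.card :=
            Finset.card_filter_add_card_filter_not _
          have hKW : K ⊆ W := by
            intro q hq
            obtain ⟨hqQ, hqE⟩ := Finset.mem_filter.1 hq
            rcases hQ q hqQ with h | h
            · exact absurd hqE (hSY q h)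
            · exact h
          have hLM : L ⊆ M := by
            intro q hq
            obtain ⟨hqQ, hqE⟩ := Finset.mem_filter.1 hq
            have hne : q ≠ e := by
              rintro rfl
              exact hqE heE
            rcases hQ q hqQ with h | h
            · obtain ⟨h1, h2⟩ := h
              exact Finset.mem_filter.2 ⟨h1, h2, e, heE, hQc hqQ heQ hne⟩
            · exact absurd (hW h) hqE
          have hKc : G.IsClique ((K ∪ L : Finset V) : Set V) := by rw [hKL]; exact hQc
          rcases Nat.lt_or_ge K.card 2 with hK2 | hK2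
          · -- `r` and `s` are complete to `L`
            have hLc : G.IsClique (L : Set V) := clique_sub hQc (Finset.filter_subset _ _)
            have hsL : s ∉ L := fun h => G.loopless.irrefl s (hM s (hLM h)).2.2
            have hrL : r ∉ L ∪ {s} := by
              intro h
              rcases Finset.mem_union.1 h with h | h
              · exact G.loopless.irrefl r (hM r (hLM h)).2.1
              · rw [Finset.mem_singleton] at h
                rw [h] at hrs
                exact G.loopless.irrefl s hrs
            have h1 : G.IsClique ((L ∪ {s} : Finset V) : Set V) := by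
              refine clique_union hLc (by simp) ?_
              intro y hy z hz
              rw [Finset.mem_singleton] at hz
              subst hz
              exact (hM y (hLM hy)).2.2.symm
            have h2 : G.IsClique (((L ∪ {s}) ∪ {r} : Finset V) : Set V) := by
              refine clique_union h1 (by simp) ?_
              intro y hy z hz
              rw [Finset.mem_singleton] at hz
              subst hz
              rcases Finset.mem_union.1 hy with h | h
              · exact (hM y (hLM h)).2.1.symm
              · rw [Finset.mem_singleton] at h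
                subst h
                exact hrs.symm
            have h3 := hX _ (Finset.union_subset (Finset.union_subset
              (fun z hz => (hM z (hLM hz)).1)
              (Finset.singleton_subset_iff.2 hs)) (Finset.singleton_subset_iff.2 hr)) h2
            rw [Finset.card_union_of_disjoint (Finset.disjoint_singleton_right.2 hrL),
              Finset.card_union_of_disjoint (Finset.disjoint_singleton_right.2 hsL),
              Finset.card_singleton, Finset.card_singleton] at h3
            omega
          · have := hWb K L hKW hK2 hLM hKc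
            omega
        · intro Q hQ hQc
          by_cases hQE : ∃ e ∈ Q, e ∈ E
          · obtain ⟨e, he, heE⟩ := hQE
            have h1 := hWa Q (by
              intro q hq
              obtain ⟨h1, h2⟩ := Finset.mem_sdiff.1 (hQ hq)
              refine Finset.mem_sdiff.2 ⟨?_, h2⟩
              by_cases hqE : q ∈ E
              · exact Finset.mem_union_left _ hqE
              · rcases Finset.mem_union.1 h1 with h | h
                · have hne : q ≠ e := by
                    rintro rfl
                    exact hqE heE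
                  exact Finset.mem_union_right _
                    (Finset.mem_filter.2 ⟨h, e, heE, hQc hq he hne⟩)
                · exact absurd h hqE) ⟨e, Finset.mem_inter.2 ⟨he, heE⟩⟩ hQc
            omega
          · have hQT : Q ⊆ T := by
              intro q hq
              rcases Finset.mem_union.1 (Finset.mem_sdiff.1 (hQ hq)).1 with h | h
              · exact h
              · exact absurd ⟨q, hq, h⟩ hQE
            exact insert_card hX (fun q hq => (hT q (hQT hq)).1) hQc s hs
              (fun y hy => (hT y (hQT hy)).2.1)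
    · -- `Y` is not connected
      have hEc : E.card < Y.card :=
        Finset.card_lt_card (Finset.ssubset_iff_subset_ne.2 ⟨hEY, hEe⟩)
      have hE1 : 0 < E.card := Finset.card_pos.2 hEn
      have hYE : (Y \ E).card ≤ n := by
        have := Finset.card_sdiff_add_card_eq_card hEY
        omega
      obtain ⟨W1, hW1, hW1a, hW1b⟩ := ihn s T (Y \ E) hYE hs hrs hT
        (fun y hy => hY y (Finset.mem_sdiff.1 hy).1)
      obtain ⟨W2, hW2, hW2a, hW2b⟩ := ihn s T E (by omega) hs hrs hT
        (fun y hy => hY y (hEY hy))
      refine ⟨W1 ∪ W2, Finset.union_subset (hW1.trans Finset.sdiff_subset) (hW2.trans hEY),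
        ?_, ?_⟩
      · intro Q hQ hQY hQc
        by_cases hQE : ∃ e ∈ Q, e ∈ E
        · obtain ⟨e, he, heE⟩ := hQE
          refine hW2a Q ?_ ⟨e, Finset.mem_inter.2 ⟨he, heE⟩⟩ hQc
          intro q hq
          rcases hQ q hq with h | h
          · exact Or.inl h
          · rcases Finset.mem_union.1 h with h | h
            · have hne : e ≠ q := by
                rintro rfl
                exact (Finset.mem_sdiff.1 (hW1 h)).2 heE
              exact absurd (hQc he hq hne) (hE0 e heE q (hW1 h))
            · exact Or.inr h
        · obtain ⟨q0, hq0⟩ := hQY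
          obtain ⟨hq0Q, hq0Y⟩ := Finset.mem_inter.1 hq0
          refine hW1a Q ?_ ⟨q0, Finset.mem_inter.2 ⟨hq0Q, Finset.mem_sdiff.2
            ⟨hq0Y, fun h => hQE ⟨q0, hq0Q, h⟩⟩⟩⟩ hQc
          intro q hq
          rcases hQ q hq with h | h
          · exact Or.inl h
          · rcases Finset.mem_union.1 h with h | h
            · exact Or.inr h
            · exact absurd ⟨q, hq, hW2 h⟩ hQE
      · intro Q hQ hQc
        by_cases hQE : ∃ e ∈ Q, e ∈ E
        · obtain ⟨e, he, heE⟩ := hQE
          refine hW2b Q ?_ hQc
          intro q hq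
          obtain ⟨h1, h2⟩ := Finset.mem_sdiff.1 (hQ hq)
          refine Finset.mem_sdiff.2 ⟨?_, fun h => h2 (Finset.mem_union_right _ h)⟩
          rcases Finset.mem_union.1 h1 with h | h
          · exact Finset.mem_union_left _ h
          · by_cases hqE : q ∈ E
            · exact Finset.mem_union_right _ hqE
            · have hne : e ≠ q := by
                rintro rfl
                exact hqE heE
              exact absurd (hQc he hq hne) (hE0 e heE q (Finset.mem_sdiff.2 ⟨h, hqE⟩))
        · refine hW1b Q ?_ hQc
          intro q hq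
          obtain ⟨h1, h2⟩ := Finset.mem_sdiff.1 (hQ hq)
          refine Finset.mem_sdiff.2 ⟨?_, fun h => h2 (Finset.mem_union_left _ h)⟩
          rcases Finset.mem_union.1 h1 with h | h
          · exact Finset.mem_union_left _ h
          · exact Finset.mem_union_right _ (Finset.mem_sdiff.2
              ⟨h, fun h' => hQE ⟨q, hq, h'⟩⟩)

/-- the rooted theorem -/
theorem good_rooted {X : Finset V} {r : V} (hr : r ∈ X) (hP : NoP5At G X r) (hC : NoC5At G X r)
    (ih : ∀ D : Finset V, D.card < X.card → Good G D) {k : ℕ} (hk : 1 ≤ k)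
    (hX : CLE G X (k + 1)) :
    ∃ A ⊆ X, r ∉ A ∧ (∀ x ∈ X, G.Adj r x → x ∈ A) ∧ CLE G A k ∧ CLE G (X \ A) k := by
  classical
  let S : Finset V := X.filter (fun x => G.Adj r x)
  have hSX : S ⊆ X := Finset.filter_subset _ _
  -- it is enough to split the part missed by `r`
  have main : (∃ W ⊆ X.filter (fun x => ¬ G.Adj r x ∧ x ≠ r), CLE G (S ∪ W) k ∧
      CLE G ((X.filter (fun x => ¬ G.Adj r x ∧ x ≠ r)) \ W) k) →
      ∃ A ⊆ X, r ∉ A ∧ (∀ x ∈ X, G.Adj r x → x ∈ A) ∧ CLE G A k ∧ CLE G (X \ A) k := by
    rintro ⟨W, hW, hWa, hWb⟩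
    refine ⟨S ∪ W, Finset.union_subset hSX (hW.trans (Finset.filter_subset _ _)), ?_, ?_, hWa,
      ?_⟩
    · intro h
      rcases Finset.mem_union.1 h with h | h
      · exact G.loopless.irrefl r (Finset.mem_filter.1 h).2
      · exact (Finset.mem_filter.1 (hW h)).2.2 rfl
    · intro x hx hrx
      exact Finset.mem_union_left _ (Finset.mem_filter.2 ⟨hx, hrx⟩)
    · intro Q hQ hQc
      have hQr : ∀ q ∈ Q, ¬ G.Adj r q := fun q hq h =>
        (Finset.mem_sdiff.1 (hQ hq)).2 (Finset.mem_union_left _
          (Finset.mem_filter.2 ⟨(Finset.mem_sdiff.1 (hQ hq)).1, h⟩))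
      by_cases hrQ : r ∈ Q
      · refine le_trans (Finset.card_le_one.2 ?_) hk
        intro x hx y hy
        have h1 : ∀ z ∈ Q, z = r := by
          intro z hz
          by_contra hne
          exact hQr z hz (hQc hrQ hz (fun h => hne h.symm))
        rw [h1 x hx, h1 y hy]
      · refine hWb Q ?_ hQc
        intro q hq
        obtain ⟨h1, h2⟩ := Finset.mem_sdiff.1 (hQ hq)
        refine Finset.mem_sdiff.2 ⟨Finset.mem_filter.2 ⟨h1, hQr q hq, ?_⟩,
          fun h => h2 (Finset.mem_union_right _ h)⟩
        rintro rfl
        exact hrQ hq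
  apply main
  rcases S.eq_empty_or_nonempty with hS | ⟨s, hs⟩
  · -- `r` is isolated
    have h1 : (X.filter (fun x => ¬ G.Adj r x ∧ x ≠ r)).card < X.card := by
      refine Finset.card_lt_card (Finset.ssubset_iff_subset_ne.2 ⟨Finset.filter_subset _ _, ?_⟩)
      intro h
      have h2 : r ∈ X.filter (fun x => ¬ G.Adj r x ∧ x ≠ r) := by rw [h]; exact hr
      exact (Finset.mem_filter.1 h2).2.2 rfl
    obtain ⟨W, hW, hWa, hWb⟩ := ih _ h1 k hk (cle_mono hX (Finset.filter_subset _ _))
    refine ⟨W, hW, ?_, hWb⟩
    rw [hS, Finset.empty_union]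
    exact hWa
  · obtain ⟨hsX, hrs⟩ := Finset.mem_filter.1 hs
    let T : Finset V := X.filter (fun x => (¬ G.Adj r x ∧ x ≠ r) ∧ G.Adj s x)
    let Y : Finset V := X.filter (fun x => (¬ G.Adj r x ∧ x ≠ r) ∧ ¬ G.Adj s x)
    obtain ⟨W, hW, hWa, hWb⟩ := pivot hr hP hC hk hX ih _ s T Y le_rfl hsX hrs
      (by
        intro t ht
        obtain ⟨h1, h2, h3⟩ := Finset.mem_filter.1 ht
        exact ⟨h1, h3, h2.1⟩)
      (by
        intro y hy
        obtain ⟨h1, h2, h3⟩ := Finset.mem_filter.1 hy
        exact ⟨h1, h3, h2.1, h2.2⟩)
    have hYZ : ∀ y ∈ Y, y ∈ X.filter (fun x => ¬ G.Adj r x ∧ x ≠ r) := by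
      intro y hy
      obtain ⟨h1, h2, _⟩ := Finset.mem_filter.1 hy
      exact Finset.mem_filter.2 ⟨h1, h2⟩
    refine ⟨W, fun y hy => hYZ y (hW hy), ?_, ?_⟩
    · intro Q hQ hQc
      by_cases hQY : (Q ∩ Y).Nonempty
      · refine hWa Q ?_ hQY hQc
        intro q hq
        rcases Finset.mem_union.1 (hQ hq) with h | h
        · exact Or.inl (Finset.mem_filter.1 h)
        · exact Or.inr h
      · have hQS : Q ⊆ S := by
          intro q hq
          rcases Finset.mem_union.1 (hQ hq) with h | h
          · exact h
          · exact absurd ⟨q, Finset.mem_inter.2 ⟨hq, hW h⟩⟩ hQY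
        exact insert_card hX (hQS.trans hSX) hQc r hr
          (fun y hy => (Finset.mem_filter.1 (hQS hy)).2)
    · refine cle_mono hWb ?_
      intro q hq
      obtain ⟨h1, h2⟩ := Finset.mem_sdiff.1 hq
      obtain ⟨h3, h4⟩ := Finset.mem_filter.1 h1
      refine Finset.mem_sdiff.2 ⟨?_, h2⟩
      by_cases hsq : G.Adj s q
      · exact Finset.mem_union_left _ (Finset.mem_filter.2 ⟨h3, h4, hsq⟩)
      · exact Finset.mem_union_right _ (Finset.mem_filter.2 ⟨h3, h4, hsq⟩)

/-- every finite set all of whose subsets with an edge are `P6`-free or have a good root or are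
good -/
theorem good_all2 (h : ∀ X : Finset V, (∃ x ∈ X, ∃ y ∈ X, G.Adj x y) →
      (NoC5On G X ∧ NoC6On G X ∧ NoP6On G X) ∨ (∃ r ∈ X, NoP5At G X r ∧ NoC5At G X r) ∨
      Good G X)
    (X : Finset V) : Good G X := by
  classical
  have key : ∀ (n : ℕ) (X : Finset V), X.card ≤ n → Good G X := by
    intro n
    induction n with
    | zero =>
      intro X hX
      have : X = ∅ := Finset.card_eq_zero.1 (by omega)
      subst this
      exact good_noedge (by simp)
    | succ n ih =>
      intro X hX
      by_cases hedge : ∃ x ∈ X, ∃ y ∈ X, G.Adj x y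
      · rcases h X hedge with ⟨h5, h6, hP⟩ | ⟨r, hr, hP, hC⟩ | hg
        · exact good_connOn h5 h6 hP hedge (fun D hD => ih D (by omega))
        · intro k hk hXk
          obtain ⟨A, hA, _, _, ha, hb⟩ := good_rooted hr hP hC (fun D hD => ih D (by omega)) hk hXk
          exact ⟨A, hA, ha, hb⟩
        · exact hg
      · refine good_noedge ?_
        intro x hx y hy h'
        exact hedge ⟨x, hx, y, hy, h'⟩
  exact key _ X le_rfl

end Pool.Agent.P6F
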